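import Mathlib
import Pool.Agent.W961.CryptoDefs
import Pool.Agent.W961.OtPriv

/-!
Unconditional oblivious transfer in the world of circuits of constant depth.

The receiver with choice bit `c` sends two matrices over the field with two elements, whose rows
and columns are indexed by `m` blocks of `2 ^ ℓ` points each: the matrix number `c` is uniformly
random except that one random column of each block is chosen, and these `m` columns sum to zero;
the other matrix is uniformly random. The sender answers with a masked copy of its input bit `i`
for both `i`: the sum of one random row of each block of the matrix number `i`, plus the input bit
on the columns of one block. The number `m` of blocks tends to infinity with the security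
parameter, but so slowly that both parties are in AC⁰.
-/

namespace Pool.Agent.Results.MP_ae38e0_lc.ObliviousTransferAC0

/-- There is a two-message protocol for oblivious transfer between two parties in AC⁰, without
errors, with receiver privacy and sender privacy against honest-but-curious parties that are
circuits of constant depth and polynomial size. -/
theorem result : ∃ S : AC0World.OT,
    S.Efficient ∧ S.Correct ∧ S.ReceiverPrivate ∧ S.SenderPrivate :=
  ⟨Pool.Agent.W961.protocol, Pool.Agent.W961.protocol_efficient, Pool.Agent.W961.protocol_correct,
    Pool.Agent.W961.protocol_receiverPrivate, Pool.Agent.W961.protocol_senderPrivate⟩

end Pool.Agent.Results.MP_ae38e0_lc.ObliviousTransferAC0
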